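import Pool.Agent.Helper61.EK.GibbsOf
set_option autoImplicit false
open Complex MeasureTheory Metric Set
open scoped Real ComplexConjugate

/-! Project EK / EKC: the Gibbs step for a general potential `V` (for the complex exponents). -/

namespace Pool.Agent.Helper61.EK

open Pool.Agent.Helper39.Area Pool.Agent.Helper52.EK Pool.Agent.Helper9.EK

/-- If `Kf w (e^(iα)) ≤ V α + C₂` for all `α`, then the mean of `exp (-V)` is at most
`exp (C₁ + C₂) (1 - a²)`, `C₁` the constant of the entropy inequality. -/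
theorem gibbs_core {C₁ : ℝ}
    (hE : ∀ (ρ : ℝ → ℝ) (w : ℂ → ℂ) (a : ℝ), Dens ρ →
      ContinuousOn w {z | 0 < ‖z‖ ∧ ‖z‖ < 1} → Real.exp (-1) < a → a < 1 →
      -Real.log (1 - a ^ 2) - C₁ ≤ (2 * π)⁻¹ * (∫ α in (0:ℝ)..(2 * π), ρ α * Real.log (ρ α)) +
        (2 * π)⁻¹ * ∫ α in (0:ℝ)..(2 * π), ρ α * Kf w (Complex.exp (α * I)) (-1) (Real.log a))
    (hKc : KfContStmt) {w : ℂ → ℂ} (hw : ContinuousOn w {z | 0 < ‖z‖ ∧ ‖z‖ < 1})
    {a : ℝ} (hae : Real.exp (-1) < a) (ha1 : a < 1)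
    {V : ℝ → ℝ} (hVc : Continuous V) (hVp : Function.Periodic V (2 * π)) {C₂ : ℝ}
    (hK : ∀ α : ℝ, Kf w (Complex.exp (α * I)) (-1) (Real.log a) ≤ V α + C₂) :
    (2 * π)⁻¹ * (∫ α in (0:ℝ)..(2 * π), Real.exp (-V α)) ≤ Real.exp (C₁ + C₂) * (1 - a ^ 2) := by
  have hap : 0 < a := (Real.exp_pos _).trans hae
  have h2π : (0:ℝ) < 2 * π := by positivity
  have hs : 0 < 1 - a ^ 2 := by nlinarith
  set g : ℝ → ℝ := fun α => Real.exp (-V α) with hg
  have hgc : Continuous g := Real.continuous_exp.comp hVc.neg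
  have hgp : ∀ α, 0 < g α := fun α => Real.exp_pos _
  have hI : 0 < ∫ α in (0:ℝ)..(2 * π), g α :=
    intervalIntegral.intervalIntegral_pos_of_pos (hgc.intervalIntegrable _ _) hgp h2π
  set M : ℝ := (2 * π)⁻¹ * (∫ α in (0:ℝ)..(2 * π), g α) with hM
  have hMp : 0 < M := mul_pos (inv_pos.mpr h2π) hI
  set ρ : ℝ → ℝ := fun α => M⁻¹ * g α with hρ
  have hρc : Continuous ρ := continuous_const.mul hgc
  have hρp : ∀ α, 0 < ρ α := fun α => mul_pos (inv_pos.mpr hMp) (hgp α)
  have hone : ∫ α in (0:ℝ)..(2 * π), ρ α = 2 * π := by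
    simp only [hρ]
    rw [intervalIntegral.integral_const_mul]
    rw [hM]
    field_simp
  have hdens : Dens ρ := by
    refine ⟨hρc, hρp, ?_, hone⟩
    intro α
    simp only [hρ, hg]
    rw [hVp α]
  have hlog1 : -1 < Real.log a := (Real.lt_log_iff_exp_lt hap).mpr hae
  have hlog2 : Real.log a < 0 := Real.log_neg hap ha1
  have hmain := hE ρ w a hdens hw hae ha1
  have hlogρ : ∀ α, Real.log (ρ α) = -V α - Real.log M := by
    intro α
    simp only [hρ, hg]
    rw [Real.log_mul (inv_pos.mpr hMp).ne' (hgp α).ne', Real.log_inv, Real.log_exp]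
    ring
  have hi1 : IntervalIntegrable (fun α => ρ α * Real.log (ρ α)) volume 0 (2 * π) :=
    (hρc.mul (hρc.log fun α => (hρp α).ne')).intervalIntegrable _ _
  have hi2 : IntervalIntegrable
      (fun α => ρ α * Kf w (Complex.exp (α * I)) (-1) (Real.log a)) volume 0 (2 * π) :=
    (hρc.mul (hKc hw hlog1 hlog2)).intervalIntegrable _ _
  have hsum : (∫ α in (0:ℝ)..(2 * π), ρ α * Real.log (ρ α)) +
      (∫ α in (0:ℝ)..(2 * π), ρ α * Kf w (Complex.exp (α * I)) (-1) (Real.log a)) ≤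
      (2 * π) * (-Real.log M + C₂) := by
    rw [← intervalIntegral.integral_add hi1 hi2]
    have hle : (∫ α in (0:ℝ)..(2 * π), (ρ α * Real.log (ρ α) +
        ρ α * Kf w (Complex.exp (α * I)) (-1) (Real.log a))) ≤
        ∫ α in (0:ℝ)..(2 * π), ρ α * (-Real.log M + C₂) := by
      apply intervalIntegral.integral_mono_on h2π.le (hi1.add hi2)
        ((hρc.mul continuous_const).intervalIntegrable _ _)
      intro α _
      have h1 := mul_le_mul_of_nonneg_left (hK α) (hρp α).le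
      show ρ α * Real.log (ρ α) + ρ α * Kf w (Complex.exp (α * I)) (-1) (Real.log a) ≤
        ρ α * (-Real.log M + C₂)
      rw [hlogρ α]
      linarith
    rw [intervalIntegral.integral_mul_const, hone] at hle
    exact hle
  have hsum2 := mul_le_mul_of_nonneg_left hsum (inv_pos.mpr h2π).le
  rw [mul_add, ← mul_assoc, inv_mul_cancel₀ h2π.ne', one_mul] at hsum2
  have hlogM : Real.log M ≤ (C₁ + C₂) + Real.log (1 - a ^ 2) := by linarith
  have h2 : M ≤ Real.exp ((C₁ + C₂) + Real.log (1 - a ^ 2)) :=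
    (Real.log_le_iff_le_exp hMp).mp hlogM
  rw [Real.exp_add, Real.exp_log hs] at h2
  exact h2

end Pool.Agent.Helper61.EK
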