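import Pool.Agent.Helper73.EK.DefsE2
import Pool.Agent.Helper9.EK.Rot
set_option autoImplicit false
open Complex MeasureTheory Metric Set
open scoped Real ComplexConjugate

/-! Project EK, module E6c: the Gibbs variational step. -/

namespace Pool.Agent.Helper61.EK

open Pool.Agent.Helper39.Area Pool.Agent.Helper52.EK Pool.Agent.Helper9.EK

/-- the statement of the entropy inequality (E2) -/
def EntropyStmt : Prop := ∃ C : ℝ, ∀ (ρ : ℝ → ℝ) (w : ℂ → ℂ) (a : ℝ), Dens ρ →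
    ContinuousOn w {z | 0 < ‖z‖ ∧ ‖z‖ < 1} → Real.exp (-1) < a → a < 1 →
    -Real.log (1 - a ^ 2) - C ≤ (2 * π)⁻¹ * (∫ α in (0:ℝ)..(2 * π), ρ α * Real.log (ρ α)) +
      (2 * π)⁻¹ * ∫ α in (0:ℝ)..(2 * π), ρ α * Kf w (Complex.exp (α * I)) (-1) (Real.log a)

/-- the statement of the continuity of the loss (E2e) -/
def KfContStmt : Prop := ∀ {w : ℂ → ℂ}, ContinuousOn w {z | 0 < ‖z‖ ∧ ‖z‖ < 1} → ∀ {t₂ : ℝ},
    -1 < t₂ → t₂ < 0 → Continuous (fun α : ℝ => Kf w (Complex.exp (α * I)) (-1) t₂)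

theorem N_circ_cont {β : ℂ → ℂ} {R : ℝ} (h : ExtR β R) {a : ℝ} (ha : 0 < a) (ha1 : a < 1) :
    Continuous (fun α : ℝ => N β (a * Complex.exp (α * I))) := by
  have hmem : ∀ α : ℝ, (a * Complex.exp (α * I) : ℂ) ∈ ball (0:ℂ) R := by
    intro α
    rw [mem_ball_zero_iff, norm_mul, Complex.norm_exp_ofReal_mul_I, mul_one, Complex.norm_real,
      Real.norm_eq_abs, abs_of_pos ha]
    exact ha1.trans h.one_lt
  have hd : ContinuousOn (deriv β) (ball 0 R) := (h.diff.deriv isOpen_ball).continuousOn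
  have hc : Continuous (fun α : ℝ => (a * Complex.exp (α * I) : ℂ)) := by fun_prop
  have h1 : Continuous (fun α : ℝ => deriv β (a * Complex.exp (α * I))) :=
    hd.comp_continuous hc hmem
  unfold N
  exact continuous_const.sub ((hc.pow 2).mul h1)

theorem N_circ_pos {β : ℂ → ℂ} {R : ℝ} (h : ExtR β R) {a : ℝ} (ha : 0 < a) (ha1 : a < 1) (α : ℝ) :
    0 < ‖N β (a * Complex.exp (α * I))‖ := by
  rw [norm_pos_iff]
  apply h.ne
  rw [mem_ball_zero_iff, norm_mul, Complex.norm_exp_ofReal_mul_I, mul_one, Complex.norm_real,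
      Real.norm_eq_abs, abs_of_pos ha]
  exact ha1.trans h.one_lt

theorem exp_per (α : ℝ) : Complex.exp (((α + 2 * π : ℝ) : ℂ) * I) = Complex.exp (α * I) := by
  push_cast
  rw [add_mul, Complex.exp_add, Complex.exp_two_pi_mul_I, mul_one]

/-- Gibbs, from the entropy inequality and the two continuity statements -/
theorem gibbs_of {κ : ℝ} {G : ℂ → ℂ}
    (hE : EntropyStmt) (hKc : KfContStmt)
    (hwc : ∀ {β : ℂ → ℂ}, Ext β → ContinuousOn (wf G β) {z | 0 < ‖z‖ ∧ ‖z‖ < 1})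
    (hK : ∃ C a₀ : ℝ, a₀ < 1 ∧ ∀ (β : ℂ → ℂ) (R a : ℝ), ExtR β R → a₀ < a → a < 1 →
      Kf (wf G β) 1 (-1) (Real.log a) ≤ κ * Real.log (‖N β a‖ / (1 - a ^ 2)) + C) :
    ∃ C a₀ : ℝ, a₀ < 1 ∧ ∀ (β : ℂ → ℂ) (R a : ℝ), ExtR β R → a₀ < a → a < 1 →
      (2 * π)⁻¹ * (∫ α in (0:ℝ)..(2 * π), ‖N β (a * Complex.exp (α * I))‖ ^ (-κ)) ≤
        C * (1 - a ^ 2) ^ (-(κ - 1)) := by
  obtain ⟨C₁, hE⟩ := hE
  obtain ⟨C₂, a₀, ha₀, hK⟩ := hK
  refine ⟨Real.exp (C₁ + C₂), max a₀ (Real.exp (-1)), ?_, ?_⟩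
  · apply max_lt ha₀
    rw [Real.exp_lt_one_iff]
    norm_num
  intro β R a h haa ha1
  have ha0 : a₀ < a := (le_max_left _ _).trans_lt haa
  have hae : Real.exp (-1) < a := (le_max_right _ _).trans_lt haa
  have hap : 0 < a := (Real.exp_pos _).trans hae
  have h2π : (0:ℝ) < 2 * π := by positivity
  have hs : 0 < 1 - a ^ 2 := by nlinarith
  set f : ℝ → ℝ := fun α => ‖N β (a * Complex.exp (α * I))‖ with hf
  have hfc : Continuous f := (N_circ_cont h hap ha1).norm
  have hfp : ∀ α, 0 < f α := fun α => N_circ_pos h hap ha1 α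
  set g : ℝ → ℝ := fun α => f α ^ (-κ) with hg
  have hgc : Continuous g := hfc.rpow_const (fun α => Or.inl (hfp α).ne')
  have hgp : ∀ α, 0 < g α := fun α => Real.rpow_pos_of_pos (hfp α) _
  have hfper : Function.Periodic f (2 * π) := by
    intro α
    simp only [hf]
    rw [exp_per]
  have hI : 0 < ∫ α in (0:ℝ)..(2 * π), g α :=
    intervalIntegral.intervalIntegral_pos_of_pos (hgc.intervalIntegrable _ _) hgp h2π
  set M : ℝ := (2 * π)⁻¹ * (∫ α in (0:ℝ)..(2 * π), g α) with hM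
  have hMp : 0 < M := mul_pos (inv_pos.mpr h2π) hI
  set ρ : ℝ → ℝ := fun α => M⁻¹ * g α with hρ
  have hρc : Continuous ρ := continuous_const.mul hgc
  have hρp : ∀ α, 0 < ρ α := fun α => mul_pos (inv_pos.mpr hMp) (hgp α)
  have hone : ∫ α in (0:ℝ)..(2 * π), ρ α = 2 * π := by
    simp only [hρ]
    rw [intervalIntegral.integral_const_mul]
    rw [hM]
    field_simp
  have hdens : Dens ρ := by
    refine ⟨hρc, hρp, ?_, hone⟩
    intro α
    simp only [hρ, hg]
    rw [hfper α]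
  have hw := hwc h.toExt
  have hlog1 : -1 < Real.log a := (Real.lt_log_iff_exp_lt hap).mpr hae
  have hlog2 : Real.log a < 0 := Real.log_neg hap ha1
  have hmain := hE ρ (wf G β) a hdens hw hae ha1
  have hlogρ : ∀ α, Real.log (ρ α) = -κ * Real.log (f α) - Real.log M := by
    intro α
    simp only [hρ, hg]
    rw [Real.log_mul (inv_pos.mpr hMp).ne' (hgp α).ne', Real.log_inv, Real.log_rpow (hfp α)]
    ring
  have hKf : ∀ α : ℝ, Kf (wf G β) (Complex.exp (α * I)) (-1) (Real.log a) ≤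
      κ * Real.log (f α) - κ * Real.log (1 - a ^ 2) + C₂ := by
    intro α
    rw [rot_Kf' α]
    have h1 := hK (rotβ β α) R a (rot_ExtR h α) ha0 ha1
    have h2 : N (rotβ β α) (a : ℂ) = N β (a * Complex.exp (α * I)) := by
      rw [rot_N' α, mul_comm]
    rw [h2, Real.log_div (hfp α).ne' hs.ne'] at h1
    simp only [hf]
    linarith
  have hi1 : IntervalIntegrable (fun α => ρ α * Real.log (ρ α)) volume 0 (2 * π) :=
    (hρc.mul (hρc.log fun α => (hρp α).ne')).intervalIntegrable _ _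
  have hi2 : IntervalIntegrable
      (fun α => ρ α * Kf (wf G β) (Complex.exp (α * I)) (-1) (Real.log a)) volume 0 (2 * π) :=
    (hρc.mul (hKc hw hlog1 hlog2)).intervalIntegrable _ _
  have hsum : (∫ α in (0:ℝ)..(2 * π), ρ α * Real.log (ρ α)) +
      (∫ α in (0:ℝ)..(2 * π), ρ α * Kf (wf G β) (Complex.exp (α * I)) (-1) (Real.log a)) ≤
      (2 * π) * (-Real.log M - κ * Real.log (1 - a ^ 2) + C₂) := by
    rw [← intervalIntegral.integral_add hi1 hi2]
    have hle : (∫ α in (0:ℝ)..(2 * π), (ρ α * Real.log (ρ α) +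
        ρ α * Kf (wf G β) (Complex.exp (α * I)) (-1) (Real.log a))) ≤
        ∫ α in (0:ℝ)..(2 * π), ρ α * (-Real.log M - κ * Real.log (1 - a ^ 2) + C₂) := by
      apply intervalIntegral.integral_mono_on h2π.le (hi1.add hi2)
        ((hρc.mul continuous_const).intervalIntegrable _ _)
      intro α _
      have h1 := mul_le_mul_of_nonneg_left (hKf α) (hρp α).le
      show ρ α * Real.log (ρ α) + ρ α * Kf (wf G β) (Complex.exp (α * I)) (-1) (Real.log a) ≤
        ρ α * (-Real.log M - κ * Real.log (1 - a ^ 2) + C₂)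
      rw [hlogρ α]
      linarith
    rw [intervalIntegral.integral_mul_const, hone] at hle
    exact hle
  have hsum2 := mul_le_mul_of_nonneg_left hsum (inv_pos.mpr h2π).le
  rw [mul_add, ← mul_assoc, inv_mul_cancel₀ h2π.ne', one_mul] at hsum2
  have hlogM : Real.log M ≤ (C₁ + C₂) + -(κ - 1) * Real.log (1 - a ^ 2) := by linarith
  have : M ≤ Real.exp ((C₁ + C₂) + -(κ - 1) * Real.log (1 - a ^ 2)) :=
    (Real.log_le_iff_le_exp hMp).mp hlogM
  rw [Real.exp_add] at this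
  rw [Real.rpow_def_of_pos hs, mul_comm (Real.log (1 - a ^ 2))]
  exact this

end Pool.Agent.Helper61.EK
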