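import Pool.Agent.Helper61.EK.Gibbs0
import Pool.Agent.Helper5.EK.Entropy
set_option autoImplicit false
open Complex MeasureTheory Metric Set
open scoped Real ComplexConjugate

/-! Project EK, module E6c: Gibbs. -/

namespace Pool.Agent.Helper61.EK

open Pool.Agent.Helper39.Area Pool.Agent.Helper52.EK Pool.Agent.Helper9.EK

theorem entropyStmt : EntropyStmt := Pool.Agent.Helper5.EK.entropy

theorem kfContStmt : KfContStmt :=
  fun hw _ h1 h2 => Pool.Agent.Helper26.EK.Kf_cont hw h1 h2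

theorem gibbs {κ L : ℝ} (hκ : 0 < κ) {G : ℂ → ℂ} (hG : GLip G L)
    (hK : ∃ C a₀ : ℝ, a₀ < 1 ∧ ∀ (β : ℂ → ℂ) (R a : ℝ), ExtR β R → a₀ < a → a < 1 →
      Kf (wf G β) 1 (-1) (Real.log a) ≤ κ * Real.log (‖N β a‖ / (1 - a ^ 2)) + C) :
    ∃ C a₀ : ℝ, a₀ < 1 ∧ ∀ (β : ℂ → ℂ) (R a : ℝ), ExtR β R → a₀ < a → a < 1 →
      (2 * π)⁻¹ * (∫ α in (0:ℝ)..(2 * π), ‖N β (a * Complex.exp (α * I))‖ ^ (-κ)) ≤
        C * (1 - a ^ 2) ^ (-(κ - 1)) := by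
  have _h := hκ
  exact gibbs0 entropyStmt hG hK

end Pool.Agent.Helper61.EK
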